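import Pool.Agent.Lib.MP_ae5b4e_an_PB.Asm
import Pool.Agent.Lib.MP_ae5b4e_an_M0.Fin
import Pool.Agent.Lib.MP_ae5b4e_an_NF.HgtS
import Pool.Agent.Lib.MP_ae5b4e_an_NF.FinAS
import Pool.Agent.Lib.MP_ae5b4e_an_N5.Fin
import Pool.Agent.Lib.MP_ae5b4e_an_N4.NoExtNb

/-!
# MP_ae5b4e_an, final assembly: a family with a natural boundary does not exist

`nbd_false_of` derives the contradiction from the two inputs `(N2)` (parts M, T, A, B, D, C) and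
`(N4)` (parts N3, N4); the polynomial bound of the potential is `MP_ae5b4e_an_NF.nf`.
-/

noncomputable section

namespace Pool.Agent.MP_ae5b4e_an_FA

open Complex Set Filter Topology Metric
open Pool.Agent.MP_ae5b4e_an_NBT
open Pool.Agent.MP_ae5b4e_an_NB2 (Sys)
open Pool.Agent.MP_ae5b4e_an_NB4H (SysOf)
open Pool.Agent.MP_ae5b4e_an_N5 (VV NV N2 N4)
open Pool.Agent.MP_ae5b4e_an_PB (Base)
open Pool.Agent.MP_ae5b4e_an_N4 (NoExt)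

/-- input (N2) -/
def InN2 : Prop := ∀ {Y : Sys} {h R C0 : ℝ} {v : ℂ → ℝ} {G L : ℂ × ℂ → ℂ}, Base Y h R C0 v G L →
  ∀ {δ C r₁ : ℝ}, 0 < δ → δ ≤ 1 → 0 < r₁ → (∀ r, 0 < r → r < r₁ → VV v r ≤ C * r ^ δ) →
    ∃ r₀ > 0, N2 v r₀ (δ / 2)

/-- input (N4) -/
def InN4 : Prop := ∀ {Y : Sys} {h R C0 : ℝ} {v : ℂ → ℝ} {G L : ℂ × ℂ → ℂ}, Base Y h R C0 v G L →
  NoExt Y h → ∀ {δ C r₁ : ℝ}, 0 < δ → δ ≤ 1 → 0 < r₁ → (∀ r, 0 < r → r < r₁ → VV v r ≤ C * r ^ δ) →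
    ∃ r₀ > 0, N4 v r₀

variable {k : ℂ → ℂ} {F G : ℂ × ℂ → ℂ} {c h : ℝ}

theorem nbd_false_of (h2 : InN2) (h4 : InN4) (hN : NBd k F c h G) : False := by
  obtain ⟨Y, hY⟩ := Pool.Agent.MP_ae5b4e_an_M0.exists_sysOf hN
  obtain ⟨R, C0, v, G', L', m, hB, _, hm, hv⟩ :=
    Pool.Agent.MP_ae5b4e_an_PB.exists_base hN hY
  obtain ⟨B, A, hQ⟩ := Pool.Agent.MP_ae5b4e_an_NF.nf hN hY
  obtain ⟨δ, C₂, R₁, hδ, hδ1, hC₂, hR₁, -, hg⟩ :=
    Pool.Agent.MP_ae5b4e_an_NF.hgt_geS hN.toConE hY hQ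
  have hR := hB.R_pos
  have hC0 : 0 ≤ C0 := zero_le_one.trans hB.C0_one
  -- the height is of Hoelder type
  have hup : ∀ r, 0 < r → r < min R (min R₁ 1) → VV v r ≤ (C₂ + C0) * r ^ δ := by
    intro r hr hr'
    have h1 : r < R := hr'.trans_le (min_le_left _ _)
    have h2 : r < R₁ := hr'.trans_le ((min_le_right _ _).trans (min_le_left _ _))
    have h3 : r < 1 := hr'.trans_le ((min_le_right _ _).trans (min_le_right _ _))
    apply csSup_le ((nonempty_closedBall.2 hr.le).image _)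
    rintro _ ⟨ρ, hρ, rfl⟩
    rw [mem_closedBall_zero_iff] at hρ
    have h4 : ρ ∈ ball (0:ℂ) R := by
      rw [mem_ball_zero_iff]
      linarith
    show v ρ ≤ _
    rw [hv ρ h4]
    have h5 := hg ρ (by linarith)
    have h6 : ‖ρ‖ ^ δ ≤ r ^ δ := Real.rpow_le_rpow (norm_nonneg _) hρ hδ.le
    have h7 : -(m ρ).im ≤ C0 * r ^ δ := by
      calc -(m ρ).im ≤ |(m ρ).im| := neg_le_abs _
        _ ≤ ‖m ρ‖ := abs_im_le_norm _
        _ ≤ C0 * ‖ρ‖ ^ 2 := hm ρ h4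
        _ ≤ C0 * r ^ 2 := by gcongr
        _ ≤ C0 * r ^ δ := by
          have : r ^ 2 ≤ r ^ δ := by
            have h8 : r ^ ((2:ℕ):ℝ) ≤ r ^ δ := by
              apply Real.rpow_le_rpow_of_exponent_ge hr h3.le
              push_cast
              linarith
            rwa [Real.rpow_natCast] at h8
          gcongr
    have h8 : C₂ * ‖ρ‖ ^ δ ≤ C₂ * r ^ δ := by gcongr
    linarith
  have hr₁ : 0 < min R (min R₁ 1) := lt_min hR (lt_min hR₁ one_pos)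
  obtain ⟨r₀, hr₀, H2⟩ := h2 hB hδ hδ1 hr₁ hup
  obtain ⟨r₀', hr₀', H4⟩ := h4 hB
    (Pool.Agent.MP_ae5b4e_an_N4.noExt_of_nbd hN hY) hδ hδ1 hr₁ hup
  obtain ⟨M, r1, hr1, hM⟩ := Pool.Agent.MP_ae5b4e_an_N5.n5 hB.nv hR (lt_min hr₀ hr₀')
    (half_pos hδ) (half_lt_self hδ) hδ1 hr₁ hup (H2.mono (min_le_left _ _))
    (H4.mono (min_le_right _ _))
  -- the height is linear
  refine Pool.Agent.MP_ae5b4e_an_M0.false_of_linear hN (M := max M 0 + C0)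
    (r₁ := min R (min r1 1)) (by positivity) ?_
  intro ρ hρ
  have h1 : ‖ρ‖ < R := hρ.trans_le (min_le_left _ _)
  have h2 : ‖ρ‖ < r1 := hρ.trans_le ((min_le_right _ _).trans (min_le_left _ _))
  have h3 : ‖ρ‖ < 1 := hρ.trans_le ((min_le_right _ _).trans (min_le_right _ _))
  have h4 : ρ ∈ ball (0:ℂ) R := by rwa [mem_ball_zero_iff]
  have h5 := hv ρ h4
  have h6 : (m ρ).im ≤ C0 * ‖ρ‖ := by
    calc (m ρ).im ≤ ‖m ρ‖ := (le_abs_self _).trans (abs_im_le_norm _)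
      _ ≤ C0 * ‖ρ‖ ^ 2 := hm ρ h4
      _ ≤ C0 * ‖ρ‖ := by
        have : ‖ρ‖ ^ 2 ≤ ‖ρ‖ := by nlinarith [norm_nonneg ρ]
        gcongr
  have h7 : v ρ ≤ M * ‖ρ‖ := by
    rcases eq_or_ne ρ 0 with h0 | h0
    · rw [h0, hB.nv.zero]
      simp
    · have h8 : 0 < ‖ρ‖ := norm_pos_iff.2 h0
      refine le_trans ?_ (hM ‖ρ‖ h8 h2)
      refine le_csSup ⟨C0, ?_⟩ ⟨ρ, by simp, rfl⟩
      rintro _ ⟨z, hz, rfl⟩
      rw [mem_closedBall_zero_iff] at hz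
      exact hB.nv.up z (by rw [mem_ball_zero_iff]; linarith)
  have h8 : M * ‖ρ‖ ≤ max M 0 * ‖ρ‖ := by
    gcongr
    exact le_max_left _ _
  rw [add_mul]
  linarith

end Pool.Agent.MP_ae5b4e_an_FA
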