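import Pool.Agent.Lib.MP_ae5b4e_an_N3.Fin
import Pool.Agent.Lib.MP_ae5b4e_an_N4.Core
import Pool.Agent.Lib.MP_ae5b4e_an_FA.Nbi

/-!
# MP_ae5b4e_an, final assembly: the input (N4)
-/

noncomputable section

namespace Pool.Agent.MP_ae5b4e_an_FA

/-- the input (N4) holds -/
theorem inN4 : InN4 := by
  intro Y h R C0 v G L hB hX δ C r₁ _ _ _ _
  obtain ⟨η, hη, lam, hlam, a, ha, A, hA, C', hC, M, hcore⟩ := Pool.Agent.MP_ae5b4e_an_N4.n4core
  exact Pool.Agent.MP_ae5b4e_an_N3.n4_of_core hB hη hlam ha hA hC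
    (hcore Y h R C0 v G L hB hX)

end Pool.Agent.MP_ae5b4e_an_FA
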