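import Pool.Agent.Lib.MP_ae5b4e_an_FA.In2
import Pool.Agent.Lib.MP_ae5b4e_an_FA.In4

/-!
# MP_ae5b4e_an, final assembly: a family with a natural boundary does not exist
-/

noncomputable section

namespace Pool.Agent.MP_ae5b4e_an_FA

open Complex Set Filter Topology Metric
open Pool.Agent.MP_ae5b4e_an_NBT

/-- **Theorem NB**: no natural boundary -/
theorem nbd_false {k : ℂ → ℂ} {F G : ℂ × ℂ → ℂ} {c h : ℝ} (hN : NBd k F c h G) : False :=
  nbd_false_of inN2 inN4 hN

end Pool.Agent.MP_ae5b4e_an_FA
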