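import Pool.Agent.Lib.MP_ae5b4e_an_BS.Circ
import Pool.Agent.Lib.MP_ae5b4e_an_NB5.FinA
import Pool.Agent.Lib.MP_ae5b4e_an_RG.Ell
import Pool.Agent.Lib.MP_ae5b4e_an_FA.Nb

/-!
# MP_ae5b4e_an, final assembly: smooth foliations around a conic with projective involutions
-/

noncomputable section

namespace Pool.Agent.MP_ae5b4e_an_FA

open Complex Set Filter Topology Metric
open scoped Polynomial ContDiff
open Pool.Agent.MP_ae5b4e_an_NBT
open Pool.Agent.MP_ae5b4e_an_SVC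
open Pool.Agent.MP_ae5b4e_an_FV
open Pool.Agent.MP_ae5b4e_an_BS

/-- the kernel of every family is rational -/
theorem con_rational {k : ℂ → ℂ} {F : ℂ × ℂ → ℂ} {c : ℝ} (hC : Con k F c) :
    ∃ A B : ℂ[X], B ≠ 0 ∧ ∀ᶠ x in 𝓝 (F (0, 0)), k x * B.eval x = A.eval x := by
  rcases dichotomy hC with ⟨h, G, hN, -, -⟩ | ⟨f, hA⟩
  · exact (nbd_false hN).elim
  · rcases entire_case hA with h | ⟨f', Y, hA', hE⟩
    · exact h
    · exact (Pool.Agent.MP_ae5b4e_an_NB5.no_entC hA' hE).elim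

open Pool.Agent.MP_ae5b4e_an_hopf
open Pool.Agent.MP_ae5b4e_an_MET (conic coef coef_apply QH)
open Pool.Agent.MP_ae5b4e_an_SMG (Fol)
open Pool.Agent.MP_ae5b4e_an_RG (circ1 CFam smooth_kappa Pencil conic_arc)

/-- **Theorem**: the case of the unit circle -/
theorem circle_all {U : ℝ → ℝ → ℝ} {κ : ℝ → ℝ} (hF : Fol circ1 U κ) (hs : ContDiff ℝ ∞ κ) :
    Pencil circ1 U := by
  obtain ⟨k, F, c, hC, hk⟩ := exists_con (CFam.of_fol hF hs)
  exact circle_of_rational hF (Or.inl hs) hC hk (con_rational hC)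

/-- **Theorem**: closed curves with an arc on a conic -/
theorem conic_all (γ : ConvexCurve) {U : ℝ → ℝ → ℝ} {κ : ℝ → ℝ} (hF : Fol γ U κ)
    (hreg : ContDiff ℝ ∞ κ ∨ (ContDiffOn ℝ ∞ (fun z : ℝ × ℝ => U z.1 z.2) (Ioo 0 1 ×ˢ univ) ∧
      ∀ c ∈ Ioo (0:ℝ) 1, ∀ t, deriv (fun r => U r t) c < 0))
    {C : QuadraticForm ℝ (Fin 3 → ℝ)} (hC : C ≠ 0) {t₀ : ℝ}
    (harc : ∀ᶠ t in 𝓝 t₀, C (γ.Γ t) = 0) : Pencil γ U := by
  refine conic_arc γ hF hreg (A := coef C 0) (B := coef C 1) (C := coef C 2) (D := coef C 3)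
    (E := coef C 4) (F := coef C 5) (fun h => hC ?_) (t₀ := t₀) ?_ fun U' κ' h1 h2 =>
      circle_all h1 h2
  · simp only [Prod.mk.injEq] at h
    obtain ⟨h0, h1, h2, h3, h4, h5⟩ := h
    ext v
    rw [coef_apply, QH, h0, h1, h2, h3, h4, h5]
    simp
  · filter_upwards [harc] with t ht
    rw [coef_apply, QH] at ht
    have e0 : γ.Γ t 0 = γ.x t := rfl
    have e1 : γ.Γ t 1 = γ.y t := rfl
    have e2 : γ.Γ t 2 = 1 := rfl
    rw [e0, e1, e2] at ht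
    linear_combination ht

end Pool.Agent.MP_ae5b4e_an_FA
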