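import Pool.Agent.Lib.MP_ae5b4e_an_C.InN2
import Pool.Agent.Lib.MP_ae5b4e_an_FA.Nbi

/-!
# MP_ae5b4e_an, final assembly: the input (N2)
-/

noncomputable section

namespace Pool.Agent.MP_ae5b4e_an_FA

/-- the input (N2) holds -/
theorem inN2 : InN2 := by
  intro Y h R C0 v G L hB δ C r₁ hδ hδ1 hr₁ hup
  exact Pool.Agent.MP_ae5b4e_an_C.n2 hB hδ hδ1 hr₁ hup

end Pool.Agent.MP_ae5b4e_an_FA
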