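import Pool.Agent.Lib.MP_ae5b4e_an_FA.StrDef
import Pool.Agent.Lib.MP_ae5b4e_an_hopf.Plane

/-!
# MP_ae5b4e_an, final assembly: strictly convex curves

Smooth closed strictly convex curves, without the hypothesis that the curvature is positive.  If a
smooth foliation of the exterior by closed curves induces projective involutions on the tangent lines,
then the curvature is positive (`StrictCurve.curved`): at a zero `t₀` of the curvature the tangent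
line is stationary, so for the leaf through the points `ℓ (t₀) ∩ ℓ (s)` and `ℓ (t) ∩ ℓ (t₀)` the
derivative of the field at `t₀` is `u ^ 2 + v ^ 2 + α (u + v)`, where `u`, `v` are the coordinates of
the two points, `u + v = κ (t₀)`; and `u` is arbitrarily large.
-/

noncomputable section

namespace Pool.Agent.MP_ae5b4e_an_FA

open Set Filter Topology Real
open scoped ContDiff
open Pool.Agent.MP_ae5b4e_an_hopf

namespace StrictCurve

variable (γ : StrictCurve)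

/-- the curve with positive curvature -/
def toConvex (h : ∀ t, 0 < γ.curv t) : ConvexCurve where
  x := γ.x
  y := γ.y
  T := γ.T
  T_pos := γ.T_pos
  smooth_x := γ.smooth_x
  smooth_y := γ.smooth_y
  per_x := γ.per_x
  per_y := γ.per_y
  curved := h
  convex := γ.convex

lemma toConvex_pt (h : ∀ t, 0 < γ.curv t) (t u : ℝ) : (γ.toConvex h).pt t u = γ.pt t u := rfl

lemma toConvex_leaf (h : ∀ t, 0 < γ.curv t) (U : ℝ → ℝ → ℝ) (c : ℝ) :
    (γ.toConvex h).leaf U c = γ.leaf U c := rfl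

lemma toConvex_trace (h : ∀ t, 0 < γ.curv t) : (γ.toConvex h).trace = γ.trace := rfl

lemma toConvex_Γ (h : ∀ t, 0 < γ.curv t) (t : ℝ) : (γ.toConvex h).Γ t = γ.Γ t := rfl

/-! ## The intersection of two tangent lines -/

def W (t s : ℝ) : ℝ := deriv γ.x t * deriv γ.y s - deriv γ.y t * deriv γ.x s

def N (t s : ℝ) : ℝ := deriv γ.x s * (γ.y t - γ.y s) - deriv γ.y s * (γ.x t - γ.x s)

/-- the coordinate on the tangent line at `t` of the intersection with the tangent line at `s` -/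
def v (t s : ℝ) : ℝ := γ.W t s / γ.N t s

variable {γ}

lemma N_left {t s : ℝ} (h : t < s) (h' : s < t + γ.T) : 0 < γ.N s t := γ.convex t s h h'

lemma N_right {t s : ℝ} (h : t < s) (h' : s < t + γ.T) : 0 < γ.N t s := by
  have := γ.convex s (t + γ.T) h' (by linarith)
  rw [γ.per_x, γ.per_y] at this
  exact this

lemma pt_eq {t s : ℝ} (h : γ.N t s ≠ 0) (h' : γ.N s t ≠ 0) :
    γ.pt t (γ.v t s) = γ.pt s (γ.v s t) := by
  unfold pt
  rw [Projectivization.mk_eq_mk_iff']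
  refine ⟨-(γ.N s t / γ.N t s), ?_⟩
  have e1 : γ.W s t = -γ.W t s := by
    unfold W
    ring
  funext i
  fin_cases i
  · show -(γ.N s t / γ.N t s) * (γ.v s t * γ.x s + deriv γ.x s) = γ.v t s * γ.x t + deriv γ.x t
    unfold v
    rw [e1]
    field_simp
    unfold W N
    ring
  · show -(γ.N s t / γ.N t s) * (γ.v s t * γ.y s + deriv γ.y s) = γ.v t s * γ.y t + deriv γ.y t
    unfold v
    rw [e1]
    field_simp
    unfold W N
    ring
  · show -(γ.N s t / γ.N t s) * γ.v s t = γ.v t s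
    unfold v
    rw [e1]
    field_simp

/-- the involution on the tangent line at `s` -/
lemma key {U : ℝ → ℝ → ℝ} {κ : ℝ → ℝ} {c : ℝ}
    (hsimple : ∀ t t', γ.pt t (U c t) = γ.pt t' (U c t') → ∃ n : ℤ, t' = t + n * γ.T)
    (hproj : ∀ t u v, u ≠ v → γ.pt t u ∈ γ.leaf U c → γ.pt t v ∈ γ.leaf U c → u + v = κ t)
    {t s : ℝ} (h : t < s) (h' : s < t + γ.T) (hU : U c t = γ.v t s) :
    U c s + γ.v s t = κ s := by
  have h1 := pt_eq (N_right h h').ne' (N_left h h').ne'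
  have h2 : U c s ≠ γ.v s t := by
    intro h3
    obtain ⟨n, hn⟩ := hsimple t s (by rw [hU, h3]; exact h1)
    have h4 : (0:ℝ) < n * γ.T := by linarith
    have h5 : (n:ℝ) * γ.T < γ.T := by linarith
    have h6 : (0:ℝ) < n := (mul_pos_iff_of_pos_right γ.T_pos).1 h4
    have h7 : (n:ℝ) < 1 := by
      by_contra hcon
      have : (1:ℝ) * γ.T ≤ n * γ.T := mul_le_mul_of_nonneg_right (not_lt.1 hcon) γ.T_pos.le
      linarith
    have h8 : 0 < n := by exact_mod_cast h6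
    have h9 : n < 1 := by exact_mod_cast h7
    omega
  exact hproj s _ _ h2 ⟨s, rfl⟩ ⟨t, by show γ.pt t (U c t) = _; rw [hU]; exact h1⟩

/-! ## Derivatives at a zero of the curvature -/

lemma hdx (t : ℝ) : HasDerivAt γ.x (deriv γ.x t) t :=
  ((contDiff_infty_iff_deriv.1 γ.smooth_x).1 t).hasDerivAt

lemma hdy (t : ℝ) : HasDerivAt γ.y (deriv γ.y t) t :=
  ((contDiff_infty_iff_deriv.1 γ.smooth_y).1 t).hasDerivAt

lemma hdx' (t : ℝ) : HasDerivAt (deriv γ.x) (deriv (deriv γ.x) t) t :=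
  ((contDiff_infty_iff_deriv.1 (contDiff_infty_iff_deriv.1 γ.smooth_x).2).1 t).hasDerivAt

lemma hdy' (t : ℝ) : HasDerivAt (deriv γ.y) (deriv (deriv γ.y) t) t :=
  ((contDiff_infty_iff_deriv.1 (contDiff_infty_iff_deriv.1 γ.smooth_y).2).1 t).hasDerivAt

lemma dir_ne (t : ℝ) : 0 < deriv γ.x t ^ 2 + deriv γ.y t ^ 2 := by
  have h := γ.convex t (t + γ.T / 2) (by linarith [γ.T_pos]) (by linarith [γ.T_pos])
  by_contra hcon
  have h0 : deriv γ.x t = 0 := by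
    have : deriv γ.x t ^ 2 ≤ 0 := by nlinarith [sq_nonneg (deriv γ.x t), sq_nonneg (deriv γ.y t)]
    exact pow_eq_zero_iff (two_ne_zero) |>.1 (le_antisymm this (sq_nonneg _))
  have h1 : deriv γ.y t = 0 := by
    have : deriv γ.y t ^ 2 ≤ 0 := by nlinarith [sq_nonneg (deriv γ.x t), sq_nonneg (deriv γ.y t)]
    exact pow_eq_zero_iff (two_ne_zero) |>.1 (le_antisymm this (sq_nonneg _))
  rw [h0, h1] at h
  simp at h

lemma exists_alpha {t₀ : ℝ} (h : γ.curv t₀ = 0) : ∃ α : ℝ,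
    deriv (deriv γ.x) t₀ = α * deriv γ.x t₀ ∧ deriv (deriv γ.y) t₀ = α * deriv γ.y t₀ := by
  have h0 := (dir_ne (γ := γ) t₀).ne'
  unfold curv at h
  refine ⟨(deriv γ.x t₀ * deriv (deriv γ.x) t₀ + deriv γ.y t₀ * deriv (deriv γ.y) t₀) /
    (deriv γ.x t₀ ^ 2 + deriv γ.y t₀ ^ 2), ?_, ?_⟩
  · rw [div_mul_eq_mul_div, eq_div_iff h0]
    linear_combination (-deriv γ.y t₀) * h
  · rw [div_mul_eq_mul_div, eq_div_iff h0]
    linear_combination (deriv γ.x t₀) * h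

lemma hasDerivAt_v_right {t₀ α s : ℝ} (hx : deriv (deriv γ.x) t₀ = α * deriv γ.x t₀)
    (hy : deriv (deriv γ.y) t₀ = α * deriv γ.y t₀) (hN : γ.N s t₀ ≠ 0) :
    HasDerivAt (fun r => γ.v s r) 0 t₀ := by
  have h1 : HasDerivAt (fun r => γ.W s r)
      (deriv γ.x s * (α * deriv γ.y t₀) - deriv γ.y s * (α * deriv γ.x t₀)) t₀ := by
    have := ((hdy' (γ := γ) t₀).const_mul (deriv γ.x s)).sub
      ((hdx' (γ := γ) t₀).const_mul (deriv γ.y s))
    rw [hx, hy] at this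
    exact this
  have h2 : HasDerivAt (fun r => γ.N s r)
      ((α * deriv γ.x t₀) * (γ.y s - γ.y t₀) + deriv γ.x t₀ * (-deriv γ.y t₀) -
        ((α * deriv γ.y t₀) * (γ.x s - γ.x t₀) + deriv γ.y t₀ * (-deriv γ.x t₀))) t₀ := by
    have := ((hdx' (γ := γ) t₀).mul ((hdy (γ := γ) t₀).const_sub (γ.y s))).sub
      ((hdy' (γ := γ) t₀).mul ((hdx (γ := γ) t₀).const_sub (γ.x s)))
    rw [hx, hy] at this
    exact this
  refine (h1.div h2 hN).congr_deriv ?_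
  rw [div_eq_zero_iff]
  left
  unfold W N
  ring

lemma hasDerivAt_v_left {t₀ α s : ℝ} (hx : deriv (deriv γ.x) t₀ = α * deriv γ.x t₀)
    (hy : deriv (deriv γ.y) t₀ = α * deriv γ.y t₀) (hN : γ.N t₀ s ≠ 0) :
    HasDerivAt (fun r => γ.v r s) (α * γ.v t₀ s + γ.v t₀ s ^ 2) t₀ := by
  have h1 : HasDerivAt (fun r => γ.W r s)
      ((α * deriv γ.x t₀) * deriv γ.y s - (α * deriv γ.y t₀) * deriv γ.x s) t₀ := by
    have := ((hdx' (γ := γ) t₀).mul_const (deriv γ.y s)).sub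
      ((hdy' (γ := γ) t₀).mul_const (deriv γ.x s))
    rw [hx, hy] at this
    exact this
  have h2 : HasDerivAt (fun r => γ.N r s)
      (deriv γ.x s * deriv γ.y t₀ - deriv γ.y s * deriv γ.x t₀) t₀ :=
    (((hdy (γ := γ) t₀).sub_const (γ.y s)).const_mul (deriv γ.x s)).sub
      (((hdx (γ := γ) t₀).sub_const (γ.x s)).const_mul (deriv γ.y s))
  refine (h1.div h2 hN).congr_deriv ?_
  unfold v
  rw [div_eq_iff (pow_ne_zero 2 hN)]
  field_simp
  unfold W N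
  ring

/-! ## The labels -/

lemma contDiffAt_U {U : ℝ → ℝ → ℝ}
    (hsm : ContDiffOn ℝ ∞ (fun z : ℝ × ℝ => U z.1 z.2) (Ioo 0 1 ×ˢ univ))
    {c : ℝ} (hc : c ∈ Ioo (0:ℝ) 1) (t : ℝ) :
    ContDiffAt ℝ ∞ (fun z : ℝ × ℝ => U z.1 z.2) (c, t) :=
  hsm.contDiffAt ((isOpen_Ioo.prod isOpen_univ).mem_nhds ⟨hc, mem_univ _⟩)

lemma exists_label {U : ℝ → ℝ → ℝ}
    (hsm : ContDiffOn ℝ ∞ (fun z : ℝ × ℝ => U z.1 z.2) (Ioo 0 1 ×ˢ univ))
    (hd : ∀ c ∈ Ioo (0:ℝ) 1, ∀ t, deriv (fun r => U r t) c < 0) {c : ℝ} (hc : c ∈ Ioo (0:ℝ) 1)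
    (s : ℝ) : ∃ (g : ℝ → ℝ) (g' : ℝ), HasDerivAt g g' (U c s) ∧ g (U c s) = c ∧
      ∀ᶠ y in 𝓝 (U c s), g y ∈ Ioo (0:ℝ) 1 ∧ U (g y) s = y := by
  have h1 : ContDiffAt ℝ ∞ (fun r => U r s) c :=
    (contDiffAt_U hsm hc s).comp c (f := fun r : ℝ => (r, s)) (contDiffAt_id.prodMk contDiffAt_const)
  have h2 : HasStrictDerivAt (fun r => U r s) (deriv (fun r => U r s) c) c :=
    h1.hasStrictDerivAt (by simp)
  have h3 := (hd c hc s).ne
  set g := h2.localInverse _ _ _ h3 with hg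
  have h4 : HasStrictDerivAt g (deriv (fun r => U r s) c)⁻¹ (U c s) := h2.to_localInverse h3
  have h5 : g (U c s) = c :=
    (h2.hasStrictFDerivAt_equiv h3).localInverse_apply_image
  refine ⟨g, _, h4.hasDerivAt, h5, ?_⟩
  have h6 : ∀ᶠ y in 𝓝 (U c s), U (g y) s = y :=
    (h2.hasStrictFDerivAt_equiv h3).eventually_right_inverse
  have h7 : ∀ᶠ y in 𝓝 (U c s), g y ∈ Ioo (0:ℝ) 1 := by
    have h8 : Tendsto g (𝓝 (U c s)) (𝓝 c) := by
      have := h4.hasDerivAt.continuousAt.tendsto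
      rwa [h5] at this
    exact h8.eventually (isOpen_Ioo.mem_nhds hc)
  exact h7.and h6

lemma hasDerivAt_comp {U : ℝ → ℝ → ℝ}
    (hsm : ContDiffOn ℝ ∞ (fun z : ℝ × ℝ => U z.1 z.2) (Ioo 0 1 ×ˢ univ))
    {f : ℝ → ℝ} {t₀ : ℝ} (hf : HasDerivAt f 0 t₀) (hm : f t₀ ∈ Ioo (0:ℝ) 1) :
    HasDerivAt (fun s => U (f s) s) (deriv (U (f t₀)) t₀) t₀ := by
  have h1 := ((contDiffAt_U hsm hm t₀).differentiableAt (by simp)).hasFDerivAt
  have h2 := h1.comp_hasDerivAt t₀ (f := fun s : ℝ => (f s, s)) (hf.prodMk (hasDerivAt_id t₀))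
  have h3 := h1.comp_hasDerivAt t₀ (f := fun s : ℝ => (f t₀, s))
    ((hasDerivAt_const t₀ (f t₀)).prodMk (hasDerivAt_id t₀))
  have h4 : HasDerivAt (U (f t₀)) _ t₀ := h3
  rw [h4.deriv]
  exact h2

lemma anti_U {U : ℝ → ℝ → ℝ}
    (hsm : ContDiffOn ℝ ∞ (fun z : ℝ × ℝ => U z.1 z.2) (Ioo 0 1 ×ˢ univ))
    (hd : ∀ c ∈ Ioo (0:ℝ) 1, ∀ t, deriv (fun r => U r t) c < 0) (t : ℝ) :
    StrictAntiOn (fun c => U c t) (Ioo 0 1) := by
  refine strictAntiOn_of_deriv_neg (convex_Ioo 0 1) ?_ ?_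
  · intro c hc
    exact ((contDiffAt_U hsm hc t).continuousAt.comp (f := fun r : ℝ => (r, t))
      (by fun_prop)).continuousWithinAt
  · intro c hc
    rw [interior_Ioo] at hc
    exact hd c hc t

lemma cont_c {U : ℝ → ℝ → ℝ}
    (hsm : ContDiffOn ℝ ∞ (fun z : ℝ × ℝ => U z.1 z.2) (Ioo 0 1 ×ˢ univ)) (t : ℝ) :
    ContinuousOn (fun c => U c t) (Ioo 0 1) := fun _ hc =>
  ((contDiffAt_U hsm hc t).continuousAt.comp (f := fun r : ℝ => (r, t))
    (by fun_prop)).continuousWithinAt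

lemma cont_t {U : ℝ → ℝ → ℝ}
    (hsm : ContDiffOn ℝ ∞ (fun z : ℝ × ℝ => U z.1 z.2) (Ioo 0 1 ×ˢ univ)) {c : ℝ}
    (hc : c ∈ Ioo (0:ℝ) 1) (t : ℝ) : ContinuousAt (fun t => U c t) t :=
  (contDiffAt_U hsm hc t).continuousAt.comp (f := fun r : ℝ => (c, r)) (by fun_prop)

/-! ## The two derivatives of the leaf -/

section two

variable {U : ℝ → ℝ → ℝ} {κ : ℝ → ℝ}
  (hsimple : ∀ c ∈ Ioo (0:ℝ) 1, ∀ t t', γ.pt t (U c t) = γ.pt t' (U c t') →
    ∃ n : ℤ, t' = t + n * γ.T)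
  (hsm : ContDiffOn ℝ ∞ (fun z : ℝ × ℝ => U z.1 z.2) (Ioo 0 1 ×ˢ univ))
  (hd : ∀ c ∈ Ioo (0:ℝ) 1, ∀ t, deriv (fun r => U r t) c < 0)
  (hproj : ∀ c ∈ Ioo (0:ℝ) 1, ∀ t u v, u ≠ v → γ.pt t u ∈ γ.leaf U c →
    γ.pt t v ∈ γ.leaf U c → u + v = κ t)
  {t₀ α : ℝ} (hx : deriv (deriv γ.x) t₀ = α * deriv γ.x t₀)
  (hy : deriv (deriv γ.y) t₀ = α * deriv γ.y t₀)

include hsimple hsm hd hproj hx hy

/-- the leaf through the intersection with a tangent line behind -/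
lemma back {t c : ℝ} (hc : c ∈ Ioo (0:ℝ) 1) (h : t < t₀) (h' : t₀ < t + γ.T)
    (hU : U c t = γ.v t t₀) :
    HasDerivAt κ (deriv (U c) t₀ + (α * γ.v t₀ t + γ.v t₀ t ^ 2)) t₀ := by
  obtain ⟨g, g', hg, hgc, hev⟩ := exists_label hsm hd hc t
  rw [hU] at hg hgc hev
  have h1 : HasDerivAt (fun s => g (γ.v t s)) 0 t₀ := by
    have := hg.comp t₀ (hasDerivAt_v_right hx hy (N_right h h').ne')
    rw [mul_zero] at this
    exact this
  have h2 : HasDerivAt (fun s => U (g (γ.v t s)) s) (deriv (U c) t₀) t₀ := by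
    have := hasDerivAt_comp hsm h1 (by rw [hgc]; exact hc)
    rw [hgc] at this
    exact this
  have h3 := h2.add (hasDerivAt_v_left (s := t) hx hy (N_left h h').ne')
  refine h3.congr_of_eventuallyEq ?_
  have h4 : Tendsto (fun s => γ.v t s) (𝓝 t₀) (𝓝 (γ.v t t₀)) :=
    (hasDerivAt_v_right hx hy (N_right h h').ne').continuousAt
  filter_upwards [h4.eventually hev, Ioi_mem_nhds h, Iio_mem_nhds h'] with s hs hs1 hs2
  exact (key (hsimple _ hs.1) (hproj _ hs.1) hs1 hs2 hs.2).symm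

/-- the leaf through the intersection with a tangent line ahead -/
lemma forw {s c : ℝ} (hc : c ∈ Ioo (0:ℝ) 1) (h : t₀ < s) (h' : s < t₀ + γ.T)
    (hU : U c t₀ = γ.v t₀ s) :
    deriv (U c) t₀ = α * γ.v t₀ s + γ.v t₀ s ^ 2 := by
  have hk := key (hsimple c hc) (hproj c hc) h h' hU
  have hk' : U c s = κ s - γ.v s t₀ := by linarith
  obtain ⟨g, g', hg, hgc, hev⟩ := exists_label hsm hd hc s
  rw [hk'] at hg hgc hev
  have hv := hasDerivAt_v_right (s := s) hx hy (N_left h h').ne'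
  have hv' : HasDerivAt (fun t => κ s - γ.v s t) 0 t₀ := by
    have := hv.const_sub (κ s)
    rw [neg_zero] at this
    exact this
  have h1 : HasDerivAt (fun t => g (κ s - γ.v s t)) 0 t₀ := by
    have := hg.comp t₀ hv'
    rw [mul_zero] at this
    exact this
  have h2 : HasDerivAt (fun t => U (g (κ s - γ.v s t)) t) (deriv (U c) t₀) t₀ := by
    have := hasDerivAt_comp hsm h1 (by rw [hgc]; exact hc)
    rw [hgc] at this
    exact this
  have hN := (N_right h h').ne'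
  have h3 := hasDerivAt_v_left (s := s) hx hy hN
  -- the two functions agree
  obtain ⟨ca, hca, hca'⟩ := exists_between hc.1
  obtain ⟨cb, hcb, hcb'⟩ := exists_between hc.2
  have hma : ca ∈ Ioo (0:ℝ) 1 := ⟨hca, hca'.trans hc.2⟩
  have hmb : cb ∈ Ioo (0:ℝ) 1 := ⟨hc.1.trans hcb, hcb'⟩
  have a1 : γ.v t₀ s < U ca t₀ := by
    rw [← hU]
    exact anti_U hsm hd t₀ hma hc hca'
  have a2 : U cb t₀ < γ.v t₀ s := by
    rw [← hU]
    exact anti_U hsm hd t₀ hc hmb hcb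
  have b1 : ∀ᶠ t in 𝓝 t₀, γ.v t s < U ca t :=
    h3.continuousAt.eventually_lt (cont_t hsm hma t₀) a1
  have b2 : ∀ᶠ t in 𝓝 t₀, U cb t < γ.v t s :=
    (cont_t hsm hmb t₀).eventually_lt h3.continuousAt a2
  have b3 : Tendsto (fun t => κ s - γ.v s t) (𝓝 t₀) (𝓝 (κ s - γ.v s t₀)) := hv'.continuousAt
  have b4 : ∀ᶠ t in 𝓝 t₀, t < s := Iio_mem_nhds h
  have b5 : ∀ᶠ t in 𝓝 t₀, s < t + γ.T := by
    have : Tendsto (fun t => t + γ.T) (𝓝 t₀) (𝓝 (t₀ + γ.T)) := by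
      exact (continuous_id.add continuous_const).tendsto t₀
    exact this.eventually (Ioi_mem_nhds h')
  have h4 : (fun t => γ.v t s) =ᶠ[𝓝 t₀] fun t => U (g (κ s - γ.v s t)) t := by
    filter_upwards [b1, b2, b3.eventually hev, b4, b5] with t k1 k2 k3 k4 k5
    have hsub : Icc ca cb ⊆ Ioo 0 1 := fun r hr => ⟨hca.trans_le hr.1, hr.2.trans_lt hcb'⟩
    have hle : ca ≤ cb := (hca'.trans hcb).le
    obtain ⟨r, hr, hr'⟩ := intermediate_value_Icc' hle ((cont_c hsm t).mono hsub)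
      (show γ.v t s ∈ Icc (U cb t) (U ca t) from ⟨k2.le, k1.le⟩)
    have hr0 := hsub hr
    have e1 := key (hsimple r hr0) (hproj r hr0) k4 k5 hr'
    have e2 : U r s = U (g (κ s - γ.v s t)) s := by
      rw [k3.2]
      linarith
    have e3 := (anti_U hsm hd s).injOn hr0 k3.1 e2
    rw [← e3]
    exact hr'.symm
  exact (h2.congr_of_eventuallyEq h4).unique h3

end two

/-! ## Close tangent lines -/

/-- the linear function in the direction of the tangent line at `t₀` -/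
def E (γ : StrictCurve) (t₀ r : ℝ) : ℝ := deriv γ.x t₀ * γ.x r + deriv γ.y t₀ * γ.y r

def E' (γ : StrictCurve) (t₀ r : ℝ) : ℝ := deriv γ.x t₀ * deriv γ.x r + deriv γ.y t₀ * deriv γ.y r

lemma hdE (t₀ r : ℝ) : HasDerivAt (γ.E t₀) (γ.E' t₀ r) r :=
  ((hdx r).const_mul _).add ((hdy r).const_mul _)

lemma contE' (t₀ : ℝ) : Continuous (γ.E' t₀) := by
  have h1 : Continuous (deriv γ.x) := (contDiff_infty_iff_deriv.1 γ.smooth_x).2.continuous
  have h2 : Continuous (deriv γ.y) := (contDiff_infty_iff_deriv.1 γ.smooth_y).2.continuous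
  unfold E'
  fun_prop

lemma contE (t₀ : ℝ) : Continuous (γ.E t₀) :=
  continuous_iff_continuousAt.2 fun r => (hdE t₀ r).continuousAt

lemma v_bounds {t₀ t s : ℝ} (h : t < s) (h' : s < t + γ.T) (h1 : 0 < γ.E' t₀ t)
    (h2 : 0 < γ.E' t₀ s) (h3 : 0 < γ.E t₀ s - γ.E t₀ t) :
    γ.E' t₀ t / (γ.E t₀ s - γ.E t₀ t) ≤ γ.v t s ∧
      γ.v s t ≤ -(γ.E' t₀ s / (γ.E t₀ s - γ.E t₀ t)) := by
  have n1 := N_left h h'
  have n2 := N_right h h'
  have e : γ.W t s * (γ.E t₀ s - γ.E t₀ t) = γ.N t s * γ.E' t₀ t + γ.N s t * γ.E' t₀ s := by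
    unfold W N E E'
    ring
  have e' : γ.W s t = -γ.W t s := by
    unfold W
    ring
  constructor
  · unfold v
    rw [div_le_div_iff₀ h3 n2, e]
    nlinarith [mul_pos n1 h2]
  · unfold v
    rw [e', neg_div, neg_le_neg_iff, div_le_div_iff₀ h3 n1, e]
    nlinarith [mul_pos n2 h1]

lemma E'_pos (t₀ : ℝ) : 0 < γ.E' t₀ t₀ := by
  have := dir_ne (γ := γ) t₀
  unfold E'
  nlinarith

lemma exists_delta (t₀ : ℝ) : ∃ δ : ℝ, 0 < δ ∧ δ < γ.T ∧
    ∀ r : ℝ, |r - t₀| < δ → 0 < γ.E' t₀ r := by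
  have h1 : ∀ᶠ r in 𝓝 t₀, 0 < γ.E' t₀ r :=
    (contE' t₀).continuousAt.eventually (Ioi_mem_nhds (E'_pos t₀))
  obtain ⟨ε, hε, h2⟩ := Metric.eventually_nhds_iff.1 h1
  refine ⟨min ε (γ.T / 2), lt_min hε (by linarith [γ.T_pos]),
    (min_le_right _ _).trans_lt (by linarith [γ.T_pos]), fun r hr => h2 ?_⟩
  rw [Real.dist_eq]
  exact hr.trans_le (min_le_left _ _)

lemma E_lt {t₀ δ : ℝ} (hδ : ∀ r : ℝ, |r - t₀| < δ → 0 < γ.E' t₀ r) {r r' : ℝ} (h : r < r')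
    (h1 : |r - t₀| < δ) (h2 : |r' - t₀| < δ) : γ.E t₀ r < γ.E t₀ r' := by
  have h3 : StrictMonoOn (γ.E t₀) (Icc r r') := by
    refine strictMonoOn_of_deriv_pos (convex_Icc _ _) (contE t₀).continuousOn ?_
    intro z hz
    rw [interior_Icc] at hz
    rw [(hdE t₀ z).deriv]
    apply hδ
    rw [abs_lt] at h1 h2 ⊢
    constructor <;> linarith [hz.1, hz.2]
  exact h3 (left_mem_Icc.2 h.le) (right_mem_Icc.2 h.le) h

lemma tend_div {l : Filter ℝ} {a b : ℝ → ℝ} {m : ℝ} (hm : 0 < m) (ha : Tendsto a l (𝓝 m))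
    (hb : Tendsto b l (𝓝[>] 0)) : Tendsto (fun t => a t / b t) l atTop := by
  have := (tendsto_inv_nhdsGT_zero.comp hb).atTop_mul_pos hm ha
  refine this.congr fun t => ?_
  simp only [Function.comp]
  rw [div_eq_mul_inv, mul_comm]

lemma near_left {t₀ δ : ℝ} (hδ : 0 < δ) : ∀ᶠ t in 𝓝[<] t₀, t < t₀ ∧ |t - t₀| < δ := by
  have h1 : ∀ᶠ t in 𝓝[<] t₀, t ∈ Ioo (t₀ - δ) t₀ := Ioo_mem_nhdsLT (by linarith)
  filter_upwards [h1] with t ht
  refine ⟨ht.2, ?_⟩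
  rw [abs_lt]
  constructor <;> linarith [ht.1, ht.2]

lemma near_right {t₀ δ : ℝ} (hδ : 0 < δ) : ∀ᶠ t in 𝓝[>] t₀, t₀ < t ∧ |t - t₀| < δ := by
  have h1 : ∀ᶠ t in 𝓝[>] t₀, t ∈ Ioo t₀ (t₀ + δ) := Ioo_mem_nhdsGT (by linarith)
  filter_upwards [h1] with t ht
  refine ⟨ht.1, ?_⟩
  rw [abs_lt]
  constructor <;> linarith [ht.1, ht.2]

lemma tend_left (γ : StrictCurve) (t₀ : ℝ) :
    Tendsto (fun t => γ.E t₀ t₀ - γ.E t₀ t) (𝓝[<] t₀) (𝓝[>] 0) := by
  obtain ⟨δ, hδ, -, hE⟩ := exists_delta (γ := γ) t₀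
  refine tendsto_nhdsWithin_of_tendsto_nhds_of_eventually_within _ ?_ ?_
  · have h3 : Tendsto (fun t : ℝ => γ.E t₀ t₀ - γ.E t₀ t) (𝓝 t₀) (𝓝 (γ.E t₀ t₀ - γ.E t₀ t₀)) :=
      (continuous_const.sub (contE t₀)).tendsto t₀
    rw [sub_self] at h3
    exact h3.mono_left nhdsWithin_le_nhds
  · filter_upwards [near_left hδ] with t ht
    exact sub_pos.2 (E_lt hE ht.1 ht.2 (by simpa using hδ))

lemma tend_right (γ : StrictCurve) (t₀ : ℝ) :
    Tendsto (fun t => γ.E t₀ t - γ.E t₀ t₀) (𝓝[>] t₀) (𝓝[>] 0) := by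
  obtain ⟨δ, hδ, -, hE⟩ := exists_delta (γ := γ) t₀
  refine tendsto_nhdsWithin_of_tendsto_nhds_of_eventually_within _ ?_ ?_
  · have h3 : Tendsto (fun t : ℝ => γ.E t₀ t - γ.E t₀ t₀) (𝓝 t₀) (𝓝 (γ.E t₀ t₀ - γ.E t₀ t₀)) :=
      ((contE t₀).sub continuous_const).tendsto t₀
    rw [sub_self] at h3
    exact h3.mono_left nhdsWithin_le_nhds
  · filter_upwards [near_right hδ] with t ht
    exact sub_pos.2 (E_lt hE ht.1 (by simpa using hδ) ht.2)

/-- (A) -/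
lemma tend_A (γ : StrictCurve) (t₀ : ℝ) : Tendsto (fun t => γ.v t t₀) (𝓝[<] t₀) atTop := by
  obtain ⟨δ, hδ, hδT, hE⟩ := exists_delta (γ := γ) t₀
  have h1 : Tendsto (fun t => γ.E' t₀ t) (𝓝[<] t₀) (𝓝 (γ.E' t₀ t₀)) :=
    ((contE' t₀).tendsto t₀).mono_left nhdsWithin_le_nhds
  refine tendsto_atTop_mono' _ ?_ (tend_div (E'_pos t₀) h1 (tend_left γ t₀))
  filter_upwards [near_left hδ] with t ht
  have h2 := (abs_lt.1 ht.2).1
  exact (v_bounds ht.1 (by linarith) (hE t ht.2) (E'_pos t₀)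
    (sub_pos.2 (E_lt hE ht.1 ht.2 (by simpa using hδ)))).1

/-- (B) -/
lemma tend_B (γ : StrictCurve) (t₀ : ℝ) : Tendsto (fun t => γ.v t₀ t) (𝓝[<] t₀) atBot := by
  obtain ⟨δ, hδ, hδT, hE⟩ := exists_delta (γ := γ) t₀
  have h1 : Tendsto (fun _ : ℝ => γ.E' t₀ t₀) (𝓝[<] t₀) (𝓝 (γ.E' t₀ t₀)) := tendsto_const_nhds
  refine tendsto_atBot_mono' _ ?_
    (tendsto_neg_atTop_atBot.comp (tend_div (E'_pos t₀) h1 (tend_left γ t₀)))
  filter_upwards [near_left hδ] with t ht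
  have h2 := (abs_lt.1 ht.2).1
  exact (v_bounds ht.1 (by linarith) (hE t ht.2) (E'_pos t₀)
    (sub_pos.2 (E_lt hE ht.1 ht.2 (by simpa using hδ)))).2

/-- (C) -/
lemma tend_C (γ : StrictCurve) (t₀ : ℝ) : Tendsto (fun s => γ.v t₀ s) (𝓝[>] t₀) atTop := by
  obtain ⟨δ, hδ, hδT, hE⟩ := exists_delta (γ := γ) t₀
  have h1 : Tendsto (fun _ : ℝ => γ.E' t₀ t₀) (𝓝[>] t₀) (𝓝 (γ.E' t₀ t₀)) := tendsto_const_nhds
  refine tendsto_atTop_mono' _ ?_ (tend_div (E'_pos t₀) h1 (tend_right γ t₀))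
  filter_upwards [near_right hδ] with t ht
  have h2 := (abs_lt.1 ht.2).2
  exact (v_bounds ht.1 (by linarith) (E'_pos t₀) (hE t ht.2)
    (sub_pos.2 (E_lt hE ht.1 (by simpa using hδ) ht.2))).1

lemma cont_v {t s : ℝ} (h : γ.N t s ≠ 0) : ContinuousAt (fun s => γ.v t s) s := by
  have h1 : Continuous (deriv γ.x) := (contDiff_infty_iff_deriv.1 γ.smooth_x).2.continuous
  have h2 : Continuous (deriv γ.y) := (contDiff_infty_iff_deriv.1 γ.smooth_y).2.continuous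
  have h3 := γ.smooth_x.continuous
  have h4 := γ.smooth_y.continuous
  have e1 : Continuous fun s => γ.W t s := by
    unfold W
    fun_prop
  have e2 : Continuous fun s => γ.N t s := by
    unfold N
    fun_prop
  exact e1.continuousAt.div e2.continuousAt h

/-- the curvature is not negative -/
lemma curv_nonneg (γ : StrictCurve) (t : ℝ) : 0 ≤ γ.curv t := by
  by_contra hcon
  push Not at hcon
  -- the derivative of the distance from the tangent line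
  set f : ℝ → ℝ := fun s => deriv γ.x t * (γ.y s - γ.y t) - deriv γ.y t * (γ.x s - γ.x t) with hf
  set f' : ℝ → ℝ := fun s => deriv γ.x t * deriv γ.y s - deriv γ.y t * deriv γ.x s with hf'
  have h1 : ∀ s, HasDerivAt f (f' s) s := fun s =>
    (((hdy s).sub_const _).const_mul _).sub (((hdx s).sub_const _).const_mul _)
  have h2 : HasDerivAt f' (γ.curv t) t := ((hdy' t).const_mul _).sub ((hdx' t).const_mul _)
  have h3 : f' t = 0 := by
    simp only [hf']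
    ring
  have h4 : ∀ᶠ s in 𝓝[>] t, f' s < 0 := by
    have h5 : Tendsto (slope f' t) (𝓝[>] t) (𝓝 (γ.curv t)) :=
      (hasDerivAt_iff_tendsto_slope.1 h2).mono_left (nhdsWithin_mono _ fun s hs => ne_of_gt hs)
    filter_upwards [h5.eventually (Iio_mem_nhds hcon), self_mem_nhdsWithin] with s hs hs'
    have hs'' : t < s := hs'
    have hs0 : slope f' t s < 0 := hs
    rw [slope_def_field, h3, sub_zero] at hs0
    by_contra h6
    have := div_nonneg (not_lt.1 h6) (sub_pos.2 hs'').le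
    linarith
  obtain ⟨u, hu, hu'⟩ := mem_nhdsGT_iff_exists_Ioo_subset.1 h4
  have hu0 : t < u := hu
  obtain ⟨s, hs1, hs2⟩ := exists_between (lt_min hu0 (show t < t + γ.T by linarith [γ.T_pos]))
  have h6 : StrictAntiOn f (Icc t s) := by
    refine strictAntiOn_of_deriv_neg (convex_Icc _ _)
      (fun r _ => (h1 r).continuousAt.continuousWithinAt) ?_
    intro r hr
    rw [interior_Icc] at hr
    rw [(h1 r).deriv]
    exact hu' ⟨hr.1, hr.2.trans (hs2.trans_le (min_le_left _ _))⟩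
  have h7 := h6 (left_mem_Icc.2 hs1.le) (right_mem_Icc.2 hs1.le) hs1
  have h8 := γ.convex t s hs1 (hs2.trans_le (min_le_right _ _))
  have h9 : f t = 0 := by
    simp only [hf]
    ring
  rw [h9] at h7
  exact lt_asymm h7 h8

/-- **Theorem**: the curvature is positive -/
theorem curved (γ : StrictCurve) {U : ℝ → ℝ → ℝ} {κ : ℝ → ℝ}
    (hsimple : ∀ c ∈ Ioo (0:ℝ) 1, ∀ t t', γ.pt t (U c t) = γ.pt t' (U c t') →
      ∃ n : ℤ, t' = t + n * γ.T)
    (hlim : ∀ t, Tendsto (fun c => U c t) (𝓝[>] 0) atTop)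
    (hsm : ContDiffOn ℝ ∞ (fun z : ℝ × ℝ => U z.1 z.2) (Ioo 0 1 ×ˢ univ))
    (hd : ∀ c ∈ Ioo (0:ℝ) 1, ∀ t, deriv (fun r => U r t) c < 0)
    (hproj : ∀ c ∈ Ioo (0:ℝ) 1, ∀ t u v, u ≠ v → γ.pt t u ∈ γ.leaf U c →
      γ.pt t v ∈ γ.leaf U c → u + v = κ t) (t₀ : ℝ) : 0 < γ.curv t₀ := by
  refine lt_of_le_of_ne (curv_nonneg γ t₀) fun h0 => ?_
  obtain ⟨α, hx, hy⟩ := exists_alpha h0.symm
  have hT := γ.T_pos
  have hh : (1/2:ℝ) ∈ Ioo (0:ℝ) 1 := ⟨by norm_num, by norm_num⟩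
  set s₁ := t₀ + γ.T / 2 with hs₁
  set M := |deriv κ t₀ - α * κ t₀| + 1 with hM
  have hM1 : 1 ≤ M := by
    rw [hM]
    linarith [abs_nonneg (deriv κ t₀ - α * κ t₀)]
  -- a tangent line behind
  have e1 : ∀ᶠ t in 𝓝[<] t₀, U (1/2) t < γ.v t t₀ := by
    have k1 : Tendsto (fun t => -(U (1/2) t)) (𝓝[<] t₀) (𝓝 (-(U (1/2) t₀))) :=
      ((cont_t hsm hh t₀).neg).mono_left nhdsWithin_le_nhds
    filter_upwards [((tend_A γ t₀).atTop_add k1).eventually_gt_atTop 0] with t ht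
    linarith
  have e2 : ∀ᶠ t in 𝓝[<] t₀, γ.v t₀ t < min (κ t₀ - γ.v t₀ s₁) (-M) :=
    (tend_B γ t₀).eventually_lt_atBot _
  have e3 := near_left (t₀ := t₀) hT
  obtain ⟨t, h1, h2, h3, h4⟩ := (e1.and (e2.and e3)).exists
  have h5 : t₀ < t + γ.T := by linarith [(abs_lt.1 h4).1]
  have h6 := h2.trans_le (min_le_left _ _)
  have h7 := h2.trans_le (min_le_right _ _)
  -- the leaf
  obtain ⟨c, hc, hcU⟩ : ∃ c ∈ Ioo (0:ℝ) 1, U c t = γ.v t t₀ := by
    have k1 : ∀ᶠ c in 𝓝[>] (0:ℝ), γ.v t t₀ < U c t := (hlim t).eventually_gt_atTop _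
    have k2 : ∀ᶠ c in 𝓝[>] (0:ℝ), c ∈ Ioo (0:ℝ) 1 := Ioo_mem_nhdsGT one_pos
    obtain ⟨a, ha1, ha2⟩ := (k1.and k2).exists
    obtain ⟨c, hc, hc'⟩ := isPreconnected_Ioo.intermediate_value hh ha2 (cont_c hsm t)
      (show γ.v t t₀ ∈ Icc (U (1/2) t) (U a t) from ⟨h1.le, ha1.le⟩)
    exact ⟨c, hc, hc'⟩
  have hk := key (hsimple c hc) (hproj c hc) h3 h5 hcU
  -- the tangent line ahead
  obtain ⟨s, hs1, hs2, hsU⟩ : ∃ s, t₀ < s ∧ s < t₀ + γ.T ∧ U c t₀ = γ.v t₀ s := by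
    have k1 : ∀ᶠ s in 𝓝[>] t₀, U c t₀ < γ.v t₀ s := (tend_C γ t₀).eventually_gt_atTop _
    have k2 : ∀ᶠ s in 𝓝[>] t₀, s ∈ Ioo t₀ s₁ := Ioo_mem_nhdsGT (by linarith)
    obtain ⟨s₂, k3, k4⟩ := (k1.and k2).exists
    have k5 : ContinuousOn (fun s => γ.v t₀ s) (Icc s₂ s₁) := by
      intro s hs
      refine (cont_v (N_right ?_ ?_).ne').continuousWithinAt
      · linarith [hs.1, k4.1]
      · linarith [hs.2]
    obtain ⟨s, k6, k7⟩ := intermediate_value_Icc' k4.2.le k5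
      (show U c t₀ ∈ Icc (γ.v t₀ s₁) (γ.v t₀ s₂) from ⟨by linarith, k3.le⟩)
    exact ⟨s, by linarith [k6.1, k4.1], by linarith [k6.2], k7.symm⟩
  have hf := forw hsimple hsm hd hproj hx hy hc hs1 hs2 hsU
  have hb := (back hsimple hsm hd hproj hx hy hc h3 h5 hcU).deriv
  rw [hf, ← hsU] at hb
  have hu : U c t₀ = κ t₀ - γ.v t₀ t := by linarith
  rw [hu] at hb
  have h8 : γ.v t₀ t ^ 2 ≤ deriv κ t₀ - α * κ t₀ := by
    nlinarith [sq_nonneg (κ t₀ - γ.v t₀ t)]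
  have h9 : deriv κ t₀ - α * κ t₀ < M := by
    rw [hM]
    linarith [le_abs_self (deriv κ t₀ - α * κ t₀)]
  nlinarith

end StrictCurve

end Pool.Agent.MP_ae5b4e_an_FA
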