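import Mathlib

/-!
# MP_ae5b4e_an: strictly convex curves, their tangent lines in the projective plane, families of
closed curves around them, conics
-/

noncomputable section

namespace Pool.Agent.MP_ae5b4e_an_FA

open Set Filter Topology Real
open scoped ContDiff

/-- A smooth closed plane curve `t ↦ (x t, y t)` with the period `T` which lies, apart from the
tangency point, strictly to the left of each of its (oriented) tangent lines. -/
structure StrictCurve where
  x : ℝ → ℝ
  y : ℝ → ℝ
  T : ℝ
  T_pos : 0 < T
  smooth_x : ContDiff ℝ ∞ x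
  smooth_y : ContDiff ℝ ∞ y
  per_x : ∀ t, x (t + T) = x t
  per_y : ∀ t, y (t + T) = y t
  convex : ∀ t s, t < s → s < t + T → 0 < deriv x t * (y s - y t) - deriv y t * (x s - x t)

namespace StrictCurve

variable (γ : StrictCurve)

/-- homogeneous coordinates of a point of the tangent line -/
def hvec (t u : ℝ) : Fin 3 → ℝ := ![u * γ.x t + deriv γ.x t, u * γ.y t + deriv γ.y t, u]

lemma hvec_ne (t u : ℝ) : γ.hvec t u ≠ 0 := by
  intro h
  have h2 : u = 0 := by simpa [hvec] using congrFun h 2
  have h0 : u * γ.x t + deriv γ.x t = 0 := by simpa [hvec] using congrFun h 0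
  have h1 : u * γ.y t + deriv γ.y t = 0 := by simpa [hvec] using congrFun h 1
  rw [h2, zero_mul, zero_add] at h0 h1
  have := γ.convex t (t + γ.T / 2) (by linarith [γ.T_pos]) (by linarith [γ.T_pos])
  rw [h0, h1] at this
  simp at this

/-- The point with the coordinate `u` of the tangent line to the curve at the parameter `t`:
`u = ∞` is the tangency point, `u ≠ 0` is the point `(x t, y t) + (x' t, y' t) / u` of the affine
chart, and `u = 0` is the point at infinity. -/
def pt (t u : ℝ) : Projectivization ℝ (Fin 3 → ℝ) :=
  Projectivization.mk ℝ (γ.hvec t u) (γ.hvec_ne t u)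

/-- The closed curve that contains the point with the coordinate `U c t` of the tangent line at
`t`, for every `t`. -/
def leaf (U : ℝ → ℝ → ℝ) (c : ℝ) : Set (Projectivization ℝ (Fin 3 → ℝ)) :=
  Set.range fun t => γ.pt t (U c t)

lemma avec_ne (t : ℝ) : (![γ.x t, γ.y t, 1] : Fin 3 → ℝ) ≠ 0 := by
  intro h
  have h2 : (1:ℝ) = 0 := by simpa using congrFun h 2
  exact one_ne_zero h2

/-- The curve as a set of points of the projective plane. -/
def trace : Set (Projectivization ℝ (Fin 3 → ℝ)) :=
  Set.range fun t => Projectivization.mk ℝ ![γ.x t, γ.y t, 1] (γ.avec_ne t)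

/-- the space curve over the plane curve -/
def Γ (t : ℝ) : Fin 3 → ℝ := ![γ.x t, γ.y t, 1]

/-- the curvature, up to a positive factor -/
def curv (t : ℝ) : ℝ := deriv γ.x t * deriv (deriv γ.y) t - deriv γ.y t * deriv (deriv γ.x) t

end StrictCurve

/-- The set of the points of the projective plane on which the quadratic form vanishes. -/
def conic (Q : QuadraticForm ℝ (Fin 3 → ℝ)) : Set (Projectivization ℝ (Fin 3 → ℝ)) :=
  {p | Q p.rep = 0}

end Pool.Agent.MP_ae5b4e_an_FA
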